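import Pool.Agent.W2helper38.IN.Red

/-!
# Quotients of the triangle group (2,3,7)
-/

set_option autoImplicit false

open scoped commutatorElement
open Equiv (Perm)

namespace Pool.Agent.W2helper38.IN

open Pool.Agent.W2helper38.FA
open Pool.Agent.H45R3.UG Pool.Agent.W582.UG

/-- the involution of the diagram -/
def aF : Fin 42 → Fin 42 :=
  ![0, 1, 3, 2, 6, 9, 4, 11, 12, 5, 15, 7, 8, 24, 18, 10, 21, 27, 14, 19, 22, 16, 20, 33, 13, 30, 35,
    17, 36, 31, 25, 29, 37, 23, 34, 26, 28, 32, 39, 38, 40, 41]

/-- the element of order three of the diagram -/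
def bF : Fin 42 → Fin 42 :=
  ![1, 2, 0, 4, 5, 3, 7, 8, 6, 10, 11, 9, 13, 14, 12, 16, 17, 15, 19, 20, 18, 22, 23, 21, 25, 26, 24,
    28, 29, 27, 31, 32, 30, 34, 35, 33, 37, 38, 36, 40, 41, 39]

/-- the labels of the six fixed points of `aF` -/
def lbl (i : Fin 42) : Option (Fin 3) :=
  if i = 0 ∨ i = 1 then some 0 else if i = 19 ∨ i = 34 then some 1 else
    if i = 40 ∨ i = 41 then some 2 else none

lemma aF_aF : ∀ i, aF (aF i) = i := by decide

lemma bF_bF : ∀ i, bF (bF (bF i)) = i := by decide

lemma lbl_aF : ∀ i, lbl (aF i) = lbl i := by decide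

lemma aF_of_lbl : ∀ i, lbl i ≠ none → aF i = i := by decide

/-- the involution of the diagram -/
def aP : Perm (Fin 42) := ⟨aF, aF, aF_aF, aF_aF⟩

/-- the element of order three of the diagram -/
def bP : Perm (Fin 42) := ⟨bF, fun i => bF (bF i), bF_bF, bF_bF⟩

/-- the wreath product -/
abbrev V42 (G : Type) [Group G] : Type := (Fin 42 → G) ⋊[mulAutArrow] (Perm (Fin 42))

section
variable {G : Type} [Group G] (s : Fin 3 → G)

/-- the value of a label -/
def ev (o : Option (Fin 3)) : G := o.elim 1 s

/-- the labelled involution -/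
def xW : V42 G := ⟨fun i => ev s (lbl i), aP⟩

/-- the element of order three -/
def yW : V42 G := ⟨1, bP⟩

/-- the value of a word -/
def evL (l : List (Fin 3)) : G := (l.map s).prod

/-- multiplication by a label -/
def push : Option (Fin 3) → List (Fin 3) → List (Fin 3)
  | none, l => l
  | some m, [] => [m]
  | some m, k :: l => if m = k then l else m :: k :: l

variable {s} (hs : ∀ m, s m * s m = 1)
include hs

lemma ev_mul_self (o : Option (Fin 3)) : ev s o * ev s o = 1 := by
  rcases o with _ | m
  · exact one_mul 1
  · exact hs m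

lemma evL_push (o : Option (Fin 3)) (l : List (Fin 3)) :
    evL s (push o l) = ev s o * evL s l := by
  rcases o with _ | m
  · exact (one_mul _).symm
  · rcases l with _ | ⟨k, l⟩
    · simp [push, evL, ev]
    · by_cases h : m = k
      · subst h
        simp only [push, if_true, evL, List.map_cons, List.prod_cons]
        show (l.map s).prod = s m * (s m * (l.map s).prod)
        rw [← mul_assoc, hs, one_mul]
      · simp only [push, if_neg h, evL, List.map_cons, List.prod_cons]
        rfl

end

/-- the labels of `(x y) ^ k` -/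
def labw : ℕ → Fin 42 → List (Fin 3)
  | 0, _ => []
  | k + 1, i => push (lbl i) (labw k (bF (bF (aF i))))

lemma labw_seven : ∀ i, labw 7 i = [] := by decide

/-- the permutation `a b`, iterated -/
def itr : ℕ → Fin 42 → Fin 42
  | 0, i => i
  | k + 1, i => aF (bF (itr k i))

lemma itr_seven : ∀ i, itr 7 i = i := by decide

section
variable {G : Type} [Group G] {s : Fin 3 → G} (hs : ∀ m, s m * s m = 1)

lemma V_ext {v w : V42 G} (h1 : ∀ i, v.left i = w.left i) (h2 : ∀ i, v.right i = w.right i) :
    v = w :=
  SemidirectProduct.ext (funext h1) (Equiv.ext h2)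

lemma V_left (v w : V42 G) (i : Fin 42) : (v * w).left i = v.left i * w.left (v.right⁻¹ i) := by
  rw [SemidirectProduct.mul_left]
  rfl

lemma V_right (v w : V42 G) : (v * w).right = v.right * w.right := rfl

include hs in
lemma xW_sq : xW s * xW s = 1 := by
  apply V_ext
  · intro i
    rw [V_left]
    show ev s (lbl i) * ev s (lbl (aF i)) = 1
    rw [lbl_aF, ev_mul_self hs]
  · intro i
    exact aF_aF i

lemma yW_cube : (yW : V42 G) * yW * yW = 1 := by
  apply V_ext
  · intro i
    rw [V_left, V_left]
    show (1 : G) * 1 * 1 = 1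
    rw [one_mul, one_mul]
  · intro i
    exact bF_bF i

include hs in
lemma xy_left (k : ℕ) : ∀ i, ((xW s * yW) ^ k).left i = evL s (labw k i) := by
  induction k with
  | zero => intro i; rfl
  | succ k ih =>
    intro i
    rw [pow_succ', V_left, V_left]
    show ev s (lbl i) * 1 * ((xW s * yW) ^ k).left (bF (bF (aF i))) = _
    rw [ih, mul_one]
    exact (evL_push hs _ _).symm

lemma xy_right (k : ℕ) : ∀ i, ((xW s * yW) ^ k).right i = itr k i := by
  induction k with
  | zero => intro i; rfl
  | succ k ih =>
    intro i
    rw [pow_succ', V_right, Perm.mul_apply, ih]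
    rfl

include hs in
lemma xy_seven : (xW s * yW) ^ 7 = 1 := by
  apply V_ext
  · intro i
    rw [xy_left hs, labw_seven]
    rfl
  · intro i
    rw [xy_right, itr_seven]
    rfl

end

/-- a path in the diagram: `true` is a step by `a`, `false` by `b` -/
def go : List Bool → Fin 42 → Fin 42
  | [], i => i
  | true :: l, i => go l (aF i)
  | false :: l, i => go l (bF i)

/-- the path does not use the labels -/
def okp : List Bool → Fin 42 → Bool
  | [], _ => true
  | true :: l, i => (lbl i).isNone && okp l (aF i)
  | false :: l, i => okp l (bF i)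

lemma go1 : go [false, false, true, false, true, false, false, true, false, false, true, false] 0 = 19
    ∧ okp [false, false, true, false, true, false, false, true, false, false, true, false] 0 = true := by
  decide

lemma go2 : go [false, false, true, false, false, true, false, true, false, false, true, false, true,
      false, false, true, false] 0 = 40
    ∧ okp [false, false, true, false, false, true, false, true, false, false, true, false, true,
      false, false, true, false] 0 = true := by
  decide

theorem exists_hurwitz {G : Type} [Group G] (X : Finset G) (s : Fin 3 → G)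
    (hs : ∀ m, s m * s m = 1) (hsX : ∀ m, s m ∈ X) (hgen : Subgroup.closure (Set.range s) = ⊤)
    (hvn : ¬ VirtNilp G) :
    ∃ (P : Type) (_ : Group P) (x y : P) (Y : Finset P), (∀ z, z ∈ Y ↔ z = x ∨ z = y) ∧
      x * x = 1 ∧ y * y * y = 1 ∧ (x * y) ^ 7 = 1 ∧ Subgroup.closure (Y : Set P) = ⊤ ∧
      ¬ VirtNilp P ∧
      ∃ N M : ℕ, ∀ n, (ball Y n).ncard ≤ N * (ball X n).ncard ^ M := by
  classical
  set x : V42 G := xW s with hx
  set y : V42 G := yW with hy
  set K : Subgroup (V42 G) := Subgroup.closure {x, y} with hK
  have hxK : x ∈ K := Subgroup.subset_closure (by simp)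
  have hyK : y ∈ K := Subgroup.subset_closure (by simp)
  let x' : K := ⟨x, hxK⟩
  let y' : K := ⟨y, hyK⟩
  have hKgen : Subgroup.closure ((({x', y'} : Finset K)) : Set K) = ⊤ := by
    have h1 : ((({x', y'} : Finset K)) : Set K) = (Subtype.val : K → V42 G) ⁻¹' {x, y} := by
      ext z
      simp only [Finset.coe_insert, Finset.coe_singleton, Set.mem_insert_iff,
        Set.mem_singleton_iff, Set.mem_preimage, Subtype.ext_iff, x', y']
    rw [h1]
    exact Subgroup.closure_closure_coe_preimage
  refine ⟨K, inferInstance, x', y', {x', y'},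
    fun z => by simp only [Finset.mem_insert, Finset.mem_singleton], Subtype.ext (xW_sq hs),
    Subtype.ext yW_cube, Subtype.ext (xy_seven hs), hKgen, ?_, ?_⟩
  · -- not virtually nilpotent
    intro hv
    let P0 : Subgroup K :=
      { carrier := {w | (w : V42 G).right 0 = 0}
        one_mem' := rfl
        mul_mem' := fun {v w} hv hw => by
          show ((v : V42 G).right * (w : V42 G).right) 0 = 0
          rw [Perm.mul_apply, hw, hv]
        inv_mem' := fun {v} hv => by
          show ((v : V42 G).right)⁻¹ 0 = 0
          rw [Perm.inv_eq_iff_eq]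
          exact hv.symm }
    let θ : P0 →* G :=
      { toFun := fun w => ((w : K) : V42 G).left 0
        map_one' := rfl
        map_mul' := fun v w => by
          have hv : ((v : K) : V42 G).right⁻¹ 0 = 0 := by
            rw [Perm.inv_eq_iff_eq]
            exact v.2.symm
          show (((v : K) : V42 G) * ((w : K) : V42 G)).left 0 = _
          rw [V_left, hv] }
    let Z : Set (Fin 42) := {i | ∃ v ∈ K, v.right⁻¹ 0 = i ∧ v.left 0 = 1}
    have Z0 : (0 : Fin 42) ∈ Z := ⟨1, one_mem _, rfl, rfl⟩
    have Zb : ∀ i ∈ Z, bF i ∈ Z := by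
      rintro _ ⟨v, hv, rfl, h⟩
      refine ⟨v * (y * y), mul_mem hv (mul_mem hyK hyK), ?_, ?_⟩
      · rw [V_right, mul_inv_rev, Perm.mul_apply]
        show bF (bF (bF (bF (v.right⁻¹ 0)))) = bF (v.right⁻¹ 0)
        rw [bF_bF]
      · rw [V_left, h, V_left]
        show (1 : G) * (1 * 1) = 1
        rw [one_mul, one_mul]
    have Za : ∀ i ∈ Z, lbl i = none → aF i ∈ Z := by
      rintro _ ⟨v, hv, rfl, h⟩ hl
      refine ⟨v * x, mul_mem hv hxK, ?_, ?_⟩
      · rw [V_right, mul_inv_rev, Perm.mul_apply]
        rfl
      · rw [V_left, h, one_mul]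
        show ev s (lbl (v.right⁻¹ 0)) = 1
        rw [hl]
        rfl
    have Zgo : ∀ (l : List Bool) (i : Fin 42), i ∈ Z → okp l i = true → go l i ∈ Z := by
      intro l
      induction l with
      | nil => intro i hi _; exact hi
      | cons c l ih =>
        intro i hi hl
        rcases c with _ | _
        · exact ih _ (Zb i hi) hl
        · have h2 : ((lbl i).isNone && okp l (aF i)) = true := hl
          rw [Bool.and_eq_true, Option.isNone_iff_eq_none] at h2
          exact ih _ (Za i hi h2.1) h2.2
    have Z1 : (19 : Fin 42) ∈ Z := by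
      rw [← go1.1]
      exact Zgo _ 0 Z0 go1.2
    have Z2 : (40 : Fin 42) ∈ Z := by
      rw [← go2.1]
      exact Zgo _ 0 Z0 go2.2
    have key : ∀ i ∈ Z, ∀ m, lbl i = some m → s m ∈ θ.range := by
      rintro _ ⟨v, hv, rfl, h⟩ m hm
      have ha : aF (v.right⁻¹ 0) = v.right⁻¹ 0 := aF_of_lbl _ (by rw [hm]; simp)
      have hr : (v * x * v⁻¹).right 0 = 0 := by
        rw [V_right, V_right, Perm.mul_apply, Perm.mul_apply]
        show v.right (aF (v.right⁻¹ 0)) = 0
        rw [ha]
        simp
      refine ⟨⟨⟨v * x * v⁻¹, mul_mem (mul_mem hv hxK) (inv_mem hv)⟩, hr⟩, ?_⟩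
      show (v * x * v⁻¹).left 0 = s m
      have h1 : (v * x * v⁻¹ * v).left 0 = s m := by
        rw [inv_mul_cancel_right, V_left, h, one_mul]
        show ev s (lbl (v.right⁻¹ 0)) = s m
        rw [hm]
        rfl
      rw [V_left] at h1
      have h2 : (v * x * v⁻¹).right⁻¹ 0 = 0 := by
        rw [Perm.inv_eq_iff_eq]
        exact hr.symm
      rw [h2, h, mul_one] at h1
      exact h1
    have hθ : Function.Surjective θ := by
      rw [← MonoidHom.range_eq_top, eq_top_iff, ← hgen, Subgroup.closure_le]
      rintro _ ⟨m, rfl⟩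
      fin_cases m
      · exact key _ Z0 0 (by decide)
      · exact key _ Z1 1 (by decide)
      · exact key _ Z2 2 (by decide)
    exact hvn (vn_of_surj (vn_sub hv P0) θ hθ)
  · -- growth
    have hdb : ∀ o, ev s o ∈ ball X 1 := by
      intro o
      rcases o with _ | m
      · exact one_mem_ball _
      · exact mem_ball_one (hsX m)
    have hgb : ∀ w : K, (w ∈ ({x', y'} : Finset K) ∨ w⁻¹ ∈ ({x', y'} : Finset K)) → ∀ i,
        (w : V42 G).left i ∈ ball X 1 := by
      rintro w hw i
      simp only [Finset.mem_insert, Finset.mem_singleton] at hw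
      rcases hw with (rfl | rfl) | (hw | hw)
      · exact hdb _
      · exact one_mem_ball _
      · have h1 : w = x' := by
          rw [← inv_inv w, hw]
          exact inv_eq_of_mul_eq_one_left (Subtype.ext (xW_sq hs))
        rw [h1]
        exact hdb _
      · have h1 : w = y' * y' := by
          rw [← inv_inv w, hw]
          exact inv_eq_of_mul_eq_one_left (Subtype.ext yW_cube)
        rw [h1]
        have h2 : (((y' * y' : K)) : V42 G).left i = 1 := by
          rw [Subgroup.coe_mul, V_left]
          exact one_mul 1
        rw [h2]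
        exact one_mem_ball _
    have hbl : ∀ (w : K) (n : ℕ), w ∈ ball ({x', y'} : Finset K) n → ∀ i,
        (w : V42 G).left i ∈ ball X n := by
      rintro w n ⟨l, h1, h2, rfl⟩ i
      have key : ∀ l : List K, (∀ z ∈ l, z ∈ ({x', y'} : Finset K) ∨
          z⁻¹ ∈ ({x', y'} : Finset K)) → ∀ i,
          ((l.prod : K) : V42 G).left i ∈ ball X l.length := by
        intro l
        induction l with
        | nil => intro _ i; exact one_mem_ball _
        | cons z l ih =>
          intro hl i
          have e1 : (((z :: l).prod : K) : V42 G) = (z : V42 G) * ((l.prod : K) : V42 G) := by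
            rw [List.prod_cons, Subgroup.coe_mul]
          rw [e1, V_left, List.length_cons, add_comm]
          exact mul_mem_ball (hgb z (hl z List.mem_cons_self) i)
            (ih (fun z hz => hl z (List.mem_cons_of_mem _ hz)) _)
      exact ball_mono h1 (key l h2 i)
    refine ⟨Nat.card (Perm (Fin 42)), Nat.card (Fin 42), fun n => ?_⟩
    have hfin : Finite (ball X n) := ball_finite X n
    let f : ball ({x', y'} : Finset K) n → Perm (Fin 42) × (Fin 42 → ball X n) :=
      fun w => ((w.1 : V42 G).right, fun i => ⟨(w.1 : V42 G).left i, hbl w.1 n w.2 i⟩)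
    have hf : Function.Injective f := by
      intro w w' h
      apply Subtype.ext
      apply Subtype.ext
      apply SemidirectProduct.ext
      · funext i
        have := congrFun (congrArg Prod.snd h) i
        exact congrArg Subtype.val this
      · exact congrArg Prod.fst h
    have h1 := Nat.card_le_card_of_injective f hf
    rw [Nat.card_prod, Nat.card_fun, Nat.card_coe_set_eq, Nat.card_coe_set_eq] at h1
    exact h1

end Pool.Agent.W2helper38.IN
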