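import Mathlib

/-!
# Involutions in alternating groups of prime degree
-/

set_option autoImplicit false

open Equiv Equiv.Perm MulAction

namespace Pool.Agent.W2helper38.IN

/-- a transitive subgroup of the alternating group of prime degree which contains a 3-cycle -/
lemma eq_top_of_three {Ω : Type} [Fintype Ω] [DecidableEq Ω] (hp : Nat.Prime (Nat.card Ω)) (o : Ω)
    (H : Subgroup (alternatingGroup Ω)) (htr : ∀ i : Ω, ∃ σ ∈ H, (σ : Perm Ω) o = i)
    {τ : alternatingGroup Ω} (hτ : τ ∈ H) (h3 : (τ : Perm Ω).IsThreeCycle) : H = ⊤ := by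
  set K : Subgroup (Perm Ω) := H.map (alternatingGroup Ω).subtype with hK
  have htrK : IsPretransitive K Ω := by
    refine ⟨fun a b => ?_⟩
    obtain ⟨σ, hσ, hσa⟩ := htr a
    obtain ⟨ρ, hρ, hρb⟩ := htr b
    refine ⟨⟨(ρ * σ⁻¹ : alternatingGroup Ω), ⟨ρ * σ⁻¹, mul_mem hρ (inv_mem hσ), rfl⟩⟩, ?_⟩
    show ((ρ : Perm Ω) * (σ : Perm Ω)⁻¹) a = b
    rw [Perm.mul_apply, ← hσa, ← hρb]
    simp
  have hprim : IsPreprimitive K Ω := IsPreprimitive.of_prime_card hp
  have h1 : alternatingGroup Ω ≤ K :=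
    alternatingGroup_le_of_isPreprimitive_of_isThreeCycle_mem hprim h3 ⟨τ, hτ, rfl⟩
  rw [eq_top_iff]
  intro σ _
  obtain ⟨ρ, hρ, hρσ⟩ := h1 σ.2
  have : ρ = σ := Subtype.ext hρσ
  rwa [← this]

lemma val_inj_iff {p : ℕ} [NeZero p] (a b : ℕ) (ha : a < p) (hb : b < p) :
    ((a : ZMod p) = (b : ZMod p)) ↔ a = b := by
  constructor
  · intro h
    have := congrArg ZMod.val h
    rwa [ZMod.val_natCast_of_lt ha, ZMod.val_natCast_of_lt hb] at this
  · rintro rfl; rfl

lemma sq_eq {K : Type} [Group K] {a b c d : K} (hbb : b * b = 1) (hdd : d * d = 1)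
    (c1 : a * b = b * a) (c2 : c * b = b * c) (c3 : a * d = d * a) (c4 : c * d = d * c)
    (c5 : b * d = d * b) : (a * b) * (c * d) * ((a * b) * (c * d)) = (a * c) * (a * c) := by
  calc (a * b) * (c * d) * ((a * b) * (c * d))
      = a * (b * c) * (d * a) * (b * c) * d := by group
    _ = a * (c * b) * (a * d) * (c * b) * d := by rw [c2, c3]
    _ = a * c * (b * a) * (d * c) * (b * d) := by group
    _ = a * c * (a * b) * (c * d) * (d * b) := by rw [c1, c4, c5]
    _ = a * c * a * (b * c) * (d * d) * b := by group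
    _ = a * c * a * c * (b * b) := by rw [hdd, ← c2]; group
    _ = _ := by rw [hbb]; group

lemma comm_of_moved {Ω : Type} [Fintype Ω] [DecidableEq Ω] {x y : alternatingGroup Ω}
    (h : ∀ i, (x : Perm Ω) i ≠ i → (y : Perm Ω) i ≠ i → False) : x * y = y * x := by
  apply Subtype.ext
  have hd : Disjoint (x : Perm Ω) (y : Perm Ω) := by
    intro i
    by_contra hcon
    push Not at hcon
    exact h i hcon.1 hcon.2
  exact hd.commute

theorem exists_perm (κ : Type) [Finite κ] :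
    ∃ (Ω : Type) (_ : Fintype Ω) (_ : DecidableEq Ω) (o : Ω) (J : κ ⊕ κ → Ω)
      (r r' e s T : alternatingGroup Ω), Function.Injective J ∧ (∀ x, J x ≠ o) ∧ 5 ≤ Nat.card Ω ∧
      r * r = 1 ∧ r' * r' = 1 ∧ (e * s) * (e * s) = 1 ∧ r * (e * s) = (e * s) * r ∧
      (∀ x, (r : Perm Ω) (J x) = J x.swap) ∧
      T = (r' * r) * (r' * r) ∧
      (e * s) * (T * (e * s) * T⁻¹) * ((e * s) * (T * (e * s) * T⁻¹)) =
        (e * (T * e * T⁻¹)) * (e * (T * e * T⁻¹)) ∧
      Subgroup.closure ({r' * r, (e * (T * e * T⁻¹)) * (e * (T * e * T⁻¹))} :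
        Set (alternatingGroup Ω)) = ⊤ ∧
      (∀ x, (e : Perm Ω) (J x) = J x) ∧
      (∀ x, (e : Perm Ω) ((T : Perm Ω) (J x)) = (T : Perm Ω) (J x)) ∧
      (∀ x, ((T * e * T⁻¹ : alternatingGroup Ω) : Perm Ω) (J x) = J x) ∧
      (∀ x, (s : Perm Ω) ((T : Perm Ω) (J x)) = (T : Perm Ω) (J x)) ∧
      (∀ x, ((T * s * T⁻¹ : alternatingGroup Ω) : Perm Ω) (J x) = J x) ∧
      (∀ H : Subgroup (alternatingGroup Ω), s ∈ H →
        (∀ σ : alternatingGroup Ω, (∀ x, (σ : Perm Ω) (J x) = J x) → σ ∈ H) → H = ⊤) := by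
  classical
  obtain ⟨k, ⟨q⟩⟩ := Finite.exists_equiv_fin κ
  obtain ⟨p, hp, hpk, hp4⟩ := Nat.exists_prime_gt_modEq_one (k := 4) (16 * k + 100) (by norm_num)
  have hp4' : p % 4 = 1 := hp4
  have : Fact p.Prime := ⟨hp⟩
  have hcard : Nat.card (ZMod p) = p := Nat.card_zmod p
  have hprime : Nat.Prime (Nat.card (ZMod p)) := by rwa [hcard]
  have hne : ∀ a b : ℕ, a < p → b < p → a ≠ b → ((a : ℕ) : ZMod p) ≠ ((b : ℕ) : ZMod p) := by
    intro a b ha hb hab h
    exact hab ((val_inj_iff _ _ (by omega) (by omega)).1 h)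
  have vlt : ∀ i : ZMod p, i.val < p := fun i => ZMod.val_lt i
  have vneg : ∀ i : ZMod p, (-i).val = if i.val = 0 then 0 else p - i.val := by
    intro i
    rw [ZMod.neg_val]
    simp only [ZMod.val_eq_zero]
  have v2 : (((2 : ℕ) : ZMod p)).val = 2 := ZMod.val_natCast_of_lt (by omega)
  have v4 : (((4 : ℕ) : ZMod p)).val = 4 := ZMod.val_natCast_of_lt (by omega)
  have vsub : ∀ i : ZMod p, (i - ((2 : ℕ) : ZMod p)).val =
      if 2 ≤ i.val then i.val - 2 else i.val + p - 2 := by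
    intro i
    split_ifs with h
    · rw [ZMod.val_sub (by rw [v2]; exact h), v2]
    · have h2 : (-((2 : ℕ) : ZMod p)).val = p - 2 := by
        rw [vneg, v2]; simp
      rw [sub_eq_add_neg, ZMod.val_add_of_lt (by rw [h2]; omega), h2]
      have := vlt i
      omega
  -- the reflection
  obtain ⟨u, hu⟩ : IsSquare (-1 : ZMod p) := ZMod.exists_sq_eq_neg_one_iff.2 (by omega)
  have hu0 : u ≠ 0 := by
    rintro rfl
    rw [mul_zero] at hu
    exact absurd hu (by norm_num)
  have hr : Equiv.neg (ZMod p) ∈ alternatingGroup (ZMod p) := by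
    have h1 : Equiv.neg (ZMod p) = Equiv.mulLeft₀ u hu0 * Equiv.mulLeft₀ u hu0 := by
      ext1 i
      simp only [Equiv.neg_apply, Perm.mul_apply, Equiv.mulLeft₀_apply]
      rw [← mul_assoc, ← hu, neg_one_mul]
    rw [mem_alternatingGroup, h1, map_mul, Int.units_mul_self]
  -- the translation
  have h2 : ((2 : ℕ) : ZMod p) ≠ 0 := by
    rw [← Nat.cast_zero]
    exact hne _ _ (by omega) (by omega) (by norm_num)
  have ht : Equiv.addLeft (1 : ZMod p) ∈ alternatingGroup (ZMod p) := by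
    have h1 : Equiv.addLeft (1 : ZMod p) =
        Equiv.addLeft ((2 : ZMod p)⁻¹) * Equiv.addLeft ((2 : ZMod p)⁻¹) := by
      ext1 i
      simp only [Equiv.coe_addLeft, Perm.mul_apply]
      rw [← add_assoc]
      congr 1
      have h2' : (2 : ZMod p) ≠ 0 := by exact_mod_cast h2
      field_simp
      norm_num
    rw [mem_alternatingGroup, h1, map_mul, Int.units_mul_self]
  have he : swap (((1 : ℕ) : ZMod p)) ((p - 1 : ℕ) : ZMod p) *
      swap ((5 : ℕ) : ZMod p) ((p - 5 : ℕ) : ZMod p) ∈ alternatingGroup (ZMod p) := by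
    rw [mem_alternatingGroup, map_mul, sign_swap (hne _ _ (by omega) (by omega) (by omega)),
      sign_swap (hne _ _ (by omega) (by omega) (by omega))]
    rfl
  -- the involution `s`
  let F : ZMod p → ZMod p := fun i =>
    if 16 ≤ i.val ∧ i.val < 16 + 8 * k ∧ i.val % 8 = 0 then i + ((4 : ℕ) : ZMod p) else
    if 16 ≤ i.val ∧ i.val < 16 + 8 * k ∧ i.val % 8 = 4 then i - ((4 : ℕ) : ZMod p) else i
  have hF : Function.Involutive F := by
    intro i
    by_cases h1 : 16 ≤ i.val ∧ i.val < 16 + 8 * k ∧ i.val % 8 = 0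
    · have e1 : F i = i + ((4 : ℕ) : ZMod p) := if_pos h1
      have e2 : (i + ((4 : ℕ) : ZMod p)).val = i.val + 4 := by
        rw [ZMod.val_add_of_lt (by rw [v4]; omega), v4]
      rw [e1]
      show (if 16 ≤ (i + ((4 : ℕ) : ZMod p)).val ∧ (i + ((4 : ℕ) : ZMod p)).val < 16 + 8 * k ∧
        (i + ((4 : ℕ) : ZMod p)).val % 8 = 0 then i + ((4 : ℕ) : ZMod p) + ((4 : ℕ) : ZMod p) else
        if 16 ≤ (i + ((4 : ℕ) : ZMod p)).val ∧ (i + ((4 : ℕ) : ZMod p)).val < 16 + 8 * k ∧
        (i + ((4 : ℕ) : ZMod p)).val % 8 = 4 then i + ((4 : ℕ) : ZMod p) - ((4 : ℕ) : ZMod p)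
        else i + ((4 : ℕ) : ZMod p)) = i
      rw [e2, if_neg (by omega), if_pos (by omega), add_sub_cancel_right]
    · by_cases h3 : 16 ≤ i.val ∧ i.val < 16 + 8 * k ∧ i.val % 8 = 4
      · have e1 : F i = i - ((4 : ℕ) : ZMod p) := (if_neg h1).trans (if_pos h3)
        have e2 : (i - ((4 : ℕ) : ZMod p)).val = i.val - 4 := by
          rw [ZMod.val_sub (by rw [v4]; omega), v4]
        rw [e1]
        show (if 16 ≤ (i - ((4 : ℕ) : ZMod p)).val ∧ (i - ((4 : ℕ) : ZMod p)).val < 16 + 8 * k ∧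
          (i - ((4 : ℕ) : ZMod p)).val % 8 = 0 then i - ((4 : ℕ) : ZMod p) + ((4 : ℕ) : ZMod p) else
          if 16 ≤ (i - ((4 : ℕ) : ZMod p)).val ∧ (i - ((4 : ℕ) : ZMod p)).val < 16 + 8 * k ∧
          (i - ((4 : ℕ) : ZMod p)).val % 8 = 4 then i - ((4 : ℕ) : ZMod p) - ((4 : ℕ) : ZMod p)
          else i - ((4 : ℕ) : ZMod p)) = i
        rw [e2, if_pos (by omega), sub_add_cancel]
      · have e1 : F i = i := (if_neg h1).trans (if_neg h3)
        rw [e1, e1]
  have hFm : ∀ i, F i ≠ i → 16 ≤ i.val ∧ i.val < 16 + 8 * k ∧ i.val % 4 = 0 := by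
    intro i hi
    by_contra hcon
    exact hi ((if_neg (by omega)).trans (if_neg (by omega)))
  set s₁ : Perm (ZMod p) := hF.toPerm F with hs₁
  have hs₁m : ∀ i, s₁ i ≠ i → 16 ≤ i.val ∧ i.val < 16 + 8 * k ∧ i.val % 4 = 0 := hFm
  have hs₁s : s₁ * s₁ = 1 := by
    ext1 i
    exact hF i
  have hs : s₁ * (Equiv.neg (ZMod p) * s₁ * (Equiv.neg (ZMod p))⁻¹) ∈ alternatingGroup (ZMod p) := by
    rw [mem_alternatingGroup, map_mul, map_mul, map_mul, map_inv, mul_comm (sign (Equiv.neg _)),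
      mul_assoc (sign s₁), mul_inv_cancel, mul_one, Int.units_mul_self]
  set r : alternatingGroup (ZMod p) := ⟨_, hr⟩ with hrdef
  set t : alternatingGroup (ZMod p) := ⟨_, ht⟩ with htdef
  set e : alternatingGroup (ZMod p) := ⟨_, he⟩ with hedef
  set s : alternatingGroup (ZMod p) := ⟨_, hs⟩ with hsdef
  have hrr : r * r = 1 := by
    apply Subtype.ext
    ext1 i
    show -(-i) = i
    rw [neg_neg]
  have hrinv : r⁻¹ = r := inv_eq_of_mul_eq_one_left hrr
  have htr : (t * r) * (t * r) = 1 := by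
    apply Subtype.ext
    ext1 i
    show 1 + -(1 + -i) = i
    ring
  have hsB : ∀ i, (Equiv.neg (ZMod p) * s₁ * (Equiv.neg (ZMod p))⁻¹) i = -(s₁ (-i)) := by
    intro i
    rfl
  have hBm : ∀ i, (Equiv.neg (ZMod p) * s₁ * (Equiv.neg (ZMod p))⁻¹) i ≠ i →
      16 ≤ (-i).val ∧ (-i).val < 16 + 8 * k ∧ (-i).val % 4 = 0 := by
    intro i hi
    apply hs₁m
    intro h
    apply hi
    rw [hsB, h, neg_neg]
  have hsm : ∀ i, (s : Perm (ZMod p)) i ≠ i →
      (16 ≤ i.val ∧ i.val < 16 + 8 * k ∧ i.val % 4 = 0) ∨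
      (16 ≤ p - i.val ∧ p - i.val < 16 + 8 * k ∧ (p - i.val) % 4 = 0) := by
    intro i hi
    by_contra hcon
    push Not at hcon
    apply hi
    have h1 : (Equiv.neg (ZMod p) * s₁ * (Equiv.neg (ZMod p))⁻¹) i = i := by
      by_contra h1
      have h3 := hBm i h1
      rw [vneg] at h3
      split_ifs at h3 with h4
      · omega
      · omega
    have h3 : s₁ i = i := by
      by_contra h3
      have h4 := hs₁m i h3
      omega
    show s₁ ((Equiv.neg (ZMod p) * s₁ * (Equiv.neg (ZMod p))⁻¹) i) = i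
    rw [h1, h3]
  have hdis : Disjoint s₁ (Equiv.neg (ZMod p) * s₁ * (Equiv.neg (ZMod p))⁻¹) := by
    intro i
    by_contra hcon
    push Not at hcon
    have h1 := hs₁m i hcon.1
    have h3 := hBm i hcon.2
    rw [vneg] at h3
    split_ifs at h3 with h4
    · omega
    · omega
  have hss : s * s = 1 := by
    apply Subtype.ext
    have hc : s₁ * (Equiv.neg (ZMod p) * s₁ * (Equiv.neg (ZMod p))⁻¹) =
      (Equiv.neg (ZMod p) * s₁ * (Equiv.neg (ZMod p))⁻¹) * s₁ := hdis.commute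
    show s₁ * (Equiv.neg (ZMod p) * s₁ * (Equiv.neg (ZMod p))⁻¹) *
      (s₁ * (Equiv.neg (ZMod p) * s₁ * (Equiv.neg (ZMod p))⁻¹)) = 1
    calc s₁ * (Equiv.neg (ZMod p) * s₁ * (Equiv.neg (ZMod p))⁻¹) *
      (s₁ * (Equiv.neg (ZMod p) * s₁ * (Equiv.neg (ZMod p))⁻¹))
        = s₁ * ((Equiv.neg (ZMod p) * s₁ * (Equiv.neg (ZMod p))⁻¹) * s₁) *
          (Equiv.neg (ZMod p) * s₁ * (Equiv.neg (ZMod p))⁻¹) := by group
      _ = s₁ * s₁ * (Equiv.neg (ZMod p) * (s₁ * s₁) * (Equiv.neg (ZMod p))⁻¹) := by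
          rw [← hc]; group
      _ = 1 := by rw [hs₁s]; group
  have hrs : r * s = s * r := by
    apply Subtype.ext
    have hc : s₁ * (Equiv.neg (ZMod p) * s₁ * (Equiv.neg (ZMod p))⁻¹) =
      (Equiv.neg (ZMod p) * s₁ * (Equiv.neg (ZMod p))⁻¹) * s₁ := hdis.commute
    have hn : Equiv.neg (ZMod p) * Equiv.neg (ZMod p) = 1 := congrArg Subtype.val hrr
    have hni : (Equiv.neg (ZMod p))⁻¹ = Equiv.neg (ZMod p) := inv_eq_of_mul_eq_one_left hn
    show Equiv.neg (ZMod p) * (s₁ * (Equiv.neg (ZMod p) * s₁ * (Equiv.neg (ZMod p))⁻¹)) =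
      s₁ * (Equiv.neg (ZMod p) * s₁ * (Equiv.neg (ZMod p))⁻¹) * Equiv.neg (ZMod p)
    have hc' := hc
    rw [hni] at hc'
    rw [hc, hni]
    calc Equiv.neg (ZMod p) * (Equiv.neg (ZMod p) * s₁ * Equiv.neg (ZMod p) * s₁)
        = (Equiv.neg (ZMod p) * Equiv.neg (ZMod p)) * (s₁ * Equiv.neg (ZMod p) * s₁) := by group
      _ = s₁ * Equiv.neg (ZMod p) * s₁ * 1 := by rw [hn]; group
      _ = s₁ * Equiv.neg (ZMod p) * s₁ * (Equiv.neg (ZMod p) * Equiv.neg (ZMod p)) := by rw [hn]
      _ = (s₁ * (Equiv.neg (ZMod p) * s₁ * Equiv.neg (ZMod p))) * Equiv.neg (ZMod p) := by group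
      _ = _ := by rw [hc']
  -- the involution `e`
  have hem : ∀ i, (e : Perm (ZMod p)) i ≠ i →
      i.val = 1 ∨ i.val = p - 1 ∨ i.val = 5 ∨ i.val = p - 5 := by
    intro i hi
    by_contra hcon
    push Not at hcon
    apply hi
    have g : ∀ a : ℕ, a < p → i.val ≠ a → i ≠ (a : ZMod p) := by
      intro a ha h h'
      apply h
      rw [h', ZMod.val_natCast_of_lt ha]
    show (swap (((1 : ℕ) : ZMod p)) ((p - 1 : ℕ) : ZMod p) *
      swap ((5 : ℕ) : ZMod p) ((p - 5 : ℕ) : ZMod p)) i = i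
    rw [Perm.mul_apply, swap_apply_of_ne_of_ne (g _ (by omega) (by omega)) (g _ (by omega) (by omega)),
      swap_apply_of_ne_of_ne (g _ (by omega) (by omega)) (g _ (by omega) (by omega))]
  have dsw : ∀ a b c d : ℕ, a < p → b < p → c < p → d < p → a ≠ b → a ≠ c → a ≠ d → b ≠ c → b ≠ d →
      c ≠ d → Disjoint (swap (a : ZMod p) (b : ZMod p)) (swap (c : ZMod p) (d : ZMod p)) := by
    intro a b c d ha hb hc hd h1 h2 h3 h4 h5 h6
    apply disjoint_swap_swap
    simp only [List.nodup_cons, List.mem_cons, List.not_mem_nil, or_false, not_or, not_false_eq_true,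
      List.nodup_nil, and_true]
    exact ⟨⟨hne _ _ ha hb h1, hne _ _ ha hc h2, hne _ _ ha hd h3⟩,
      ⟨hne _ _ hb hc h4, hne _ _ hb hd h5⟩, hne _ _ hc hd h6⟩
  have hee : e * e = 1 := by
    apply Subtype.ext
    have c1 := (dsw 1 (p - 1) 5 (p - 5) (by omega) (by omega) (by omega) (by omega) (by omega)
      (by omega) (by omega) (by omega) (by omega) (by omega)).commute.eq
    show swap (((1 : ℕ) : ZMod p)) ((p - 1 : ℕ) : ZMod p) *
      swap ((5 : ℕ) : ZMod p) ((p - 5 : ℕ) : ZMod p) * (swap (((1 : ℕ) : ZMod p)) ((p - 1 : ℕ) : ZMod p) *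
      swap ((5 : ℕ) : ZMod p) ((p - 5 : ℕ) : ZMod p)) = 1
    conv_lhs => rw [c1]
    rw [mul_assoc, ← mul_assoc (swap (((1 : ℕ) : ZMod p)) ((p - 1 : ℕ) : ZMod p)) (swap _ _) (swap _ _)]
    rw [c1, mul_assoc, swap_mul_self, mul_one, swap_mul_self]
  have hconj : ∀ (f : Perm (ZMod p)) (x y : ZMod p), f * swap x y * f⁻¹ = swap (f x) (f y) := by
    intro f x y
    rw [Equiv.mul_swap_eq_swap_mul, mul_inv_cancel_right]
  have hre : r * e = e * r := by
    apply Subtype.ext
    have h1 := hconj (Equiv.neg (ZMod p)) ((1 : ℕ) : ZMod p) ((p - 1 : ℕ) : ZMod p)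
    have h3 := hconj (Equiv.neg (ZMod p)) ((5 : ℕ) : ZMod p) ((p - 5 : ℕ) : ZMod p)
    have g : ∀ a : ℕ, a ≤ p → -((p - a : ℕ) : ZMod p) = (a : ZMod p) := by
      intro a ha
      rw [Nat.cast_sub ha, CharP.cast_eq_zero]
      ring
    have g' : ∀ a : ℕ, a ≤ p → -(a : ZMod p) = ((p - a : ℕ) : ZMod p) := by
      intro a ha
      rw [← g a ha, neg_neg]
    simp only [Equiv.neg_apply] at h1 h3
    rw [g 1 (by omega), g' 1 (by omega), swap_comm ((p - 1 : ℕ) : ZMod p)] at h1
    rw [g 5 (by omega), g' 5 (by omega), swap_comm ((p - 5 : ℕ) : ZMod p)] at h3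
    show Equiv.neg (ZMod p) * (swap (((1 : ℕ) : ZMod p)) ((p - 1 : ℕ) : ZMod p) *
      swap ((5 : ℕ) : ZMod p) ((p - 5 : ℕ) : ZMod p)) = (swap (((1 : ℕ) : ZMod p)) ((p - 1 : ℕ) : ZMod p) *
      swap ((5 : ℕ) : ZMod p) ((p - 5 : ℕ) : ZMod p)) * Equiv.neg (ZMod p)
    conv_rhs => rw [← h1, ← h3]
    group
  -- conjugation by `T`
  set T : alternatingGroup (ZMod p) := t * t with hT
  have hTa : ∀ i, (T : Perm (ZMod p)) i = i + ((2 : ℕ) : ZMod p) := by
    intro i
    show 1 + (1 + i) = i + ((2 : ℕ) : ZMod p)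
    push_cast
    ring
  have hTi : ∀ i, ((T⁻¹ : alternatingGroup (ZMod p)) : Perm (ZMod p)) i = i - ((2 : ℕ) : ZMod p) := by
    intro i
    show (T : Perm (ZMod p))⁻¹ i = _
    rw [Perm.inv_eq_iff_eq, hTa, sub_add_cancel]
  have hTm : ∀ (x : alternatingGroup (ZMod p)) (i : ZMod p),
      ((T * x * T⁻¹ : alternatingGroup (ZMod p)) : Perm (ZMod p)) i ≠ i →
      (x : Perm (ZMod p)) (i - ((2 : ℕ) : ZMod p)) ≠ i - ((2 : ℕ) : ZMod p) := by
    intro x i hi h
    apply hi
    show (T : Perm (ZMod p)) ((x : Perm (ZMod p)) (((T⁻¹ : alternatingGroup (ZMod p)) :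
      Perm (ZMod p)) i)) = i
    rw [hTi, h, hTa, sub_add_cancel]
  have es : e * s = s * e := comm_of_moved fun i h1 h2 => by
    have a1 := hem i h1
    have a2 := hsm i h2
    omega
  have e's : (T * e * T⁻¹) * s = s * (T * e * T⁻¹) := comm_of_moved fun i h1 h2 => by
    have a1 := hem _ (hTm e i h1)
    have a2 := hsm i h2
    have a3 := vlt i
    rw [vsub] at a1
    split_ifs at a1 <;> omega
  have es' : e * (T * s * T⁻¹) = (T * s * T⁻¹) * e := comm_of_moved fun i h1 h2 => by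
    have a1 := hem i h1
    have a2 := hsm _ (hTm s i h2)
    have a3 := vlt i
    rw [vsub] at a2
    split_ifs at a2 <;> omega
  have e's' : (T * e * T⁻¹) * (T * s * T⁻¹) = (T * s * T⁻¹) * (T * e * T⁻¹) := by
    calc (T * e * T⁻¹) * (T * s * T⁻¹) = T * (e * s) * T⁻¹ := by group
      _ = T * (s * e) * T⁻¹ := by rw [es]
      _ = _ := by group
  have ss' : s * (T * s * T⁻¹) = (T * s * T⁻¹) * s := comm_of_moved fun i h1 h2 => by
    have a1 := hsm i h1
    have a2 := hsm _ (hTm s i h2)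
    have a3 := vlt i
    rw [vsub] at a2
    split_ifs at a2 <;> omega
  have hs's' : (T * s * T⁻¹) * (T * s * T⁻¹) = 1 := by
    calc (T * s * T⁻¹) * (T * s * T⁻¹) = T * (s * s) * T⁻¹ := by group
      _ = 1 := by rw [hss]; group
  have hcube : (e * s) * (T * (e * s) * T⁻¹) * ((e * s) * (T * (e * s) * T⁻¹)) =
      (e * (T * e * T⁻¹)) * (e * (T * e * T⁻¹)) := by
    have h1 : T * (e * s) * T⁻¹ = (T * e * T⁻¹) * (T * s * T⁻¹) := by group
    rw [h1]
    exact sq_eq hss hs's' es e's es' e's' ss'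
  -- the 3-cycle
  have h3c : (((e * (T * e * T⁻¹)) * (e * (T * e * T⁻¹)) : alternatingGroup (ZMod p)) :
      Perm (ZMod p)).IsThreeCycle := by
    have g1 : ((T * e * T⁻¹ : alternatingGroup (ZMod p)) : Perm (ZMod p)) =
        swap ((3 : ℕ) : ZMod p) ((1 : ℕ) : ZMod p) * swap ((7 : ℕ) : ZMod p) ((p - 3 : ℕ) : ZMod p) := by
      have k1 := hconj (T : Perm (ZMod p)) ((1 : ℕ) : ZMod p) ((p - 1 : ℕ) : ZMod p)
      have k2 := hconj (T : Perm (ZMod p)) ((5 : ℕ) : ZMod p) ((p - 5 : ℕ) : ZMod p)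
      rw [hTa, hTa, ← Nat.cast_add, ← Nat.cast_add] at k1 k2
      have k3 : ((p - 1 + 2 : ℕ) : ZMod p) = ((1 : ℕ) : ZMod p) := by
        rw [show p - 1 + 2 = p + 1 by omega, Nat.cast_add, CharP.cast_eq_zero, zero_add]
      have k4 : p - 5 + 2 = p - 3 := by omega
      rw [k3] at k1
      rw [k4] at k2
      show (T : Perm (ZMod p)) * (swap (((1 : ℕ) : ZMod p)) ((p - 1 : ℕ) : ZMod p) *
        swap ((5 : ℕ) : ZMod p) ((p - 5 : ℕ) : ZMod p)) * (T : Perm (ZMod p))⁻¹ = _
      calc (T : Perm (ZMod p)) * (swap (((1 : ℕ) : ZMod p)) ((p - 1 : ℕ) : ZMod p) *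
          swap ((5 : ℕ) : ZMod p) ((p - 5 : ℕ) : ZMod p)) * (T : Perm (ZMod p))⁻¹
          = ((T : Perm (ZMod p)) * swap (((1 : ℕ) : ZMod p)) ((p - 1 : ℕ) : ZMod p) *
            (T : Perm (ZMod p))⁻¹) * ((T : Perm (ZMod p)) *
            swap ((5 : ℕ) : ZMod p) ((p - 5 : ℕ) : ZMod p) * (T : Perm (ZMod p))⁻¹) := by group
        _ = _ := by rw [k1, k2]
    have g2 : (((e * (T * e * T⁻¹)) * (e * (T * e * T⁻¹)) : alternatingGroup (ZMod p)) :
        Perm (ZMod p)) =
        (swap (((1 : ℕ) : ZMod p)) ((p - 1 : ℕ) : ZMod p) * swap ((3 : ℕ) : ZMod p) ((1 : ℕ) : ZMod p))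
        * (swap (((1 : ℕ) : ZMod p)) ((p - 1 : ℕ) : ZMod p) *
          swap ((3 : ℕ) : ZMod p) ((1 : ℕ) : ZMod p)) := by
      rw [Subgroup.coe_mul, Subgroup.coe_mul, g1]
      refine sq_eq (swap_mul_self _ _) (swap_mul_self _ _) ?_ ?_ ?_ ?_ ?_
      · exact (dsw 1 (p - 1) 5 (p - 5) (by omega) (by omega) (by omega) (by omega) (by omega)
          (by omega) (by omega) (by omega) (by omega) (by omega)).commute.eq
      · exact (dsw 3 1 5 (p - 5) (by omega) (by omega) (by omega) (by omega) (by omega)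
          (by omega) (by omega) (by omega) (by omega) (by omega)).commute.eq
      · exact (dsw 1 (p - 1) 7 (p - 3) (by omega) (by omega) (by omega) (by omega) (by omega)
          (by omega) (by omega) (by omega) (by omega) (by omega)).commute.eq
      · exact (dsw 3 1 7 (p - 3) (by omega) (by omega) (by omega) (by omega) (by omega)
          (by omega) (by omega) (by omega) (by omega) (by omega)).commute.eq
      · exact (dsw 5 (p - 5) 7 (p - 3) (by omega) (by omega) (by omega) (by omega) (by omega)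
          (by omega) (by omega) (by omega) (by omega) (by omega)).commute.eq
    rw [g2]
    apply IsThreeCycle.isThreeCycle_sq
    rw [swap_comm ((3 : ℕ) : ZMod p)]
    exact isThreeCycle_swap_mul_swap_same (hne _ _ (by omega) (by omega) (by omega))
      (hne _ _ (by omega) (by omega) (by omega)) (hne _ _ (by omega) (by omega) (by omega))
  -- the points
  let J : κ ⊕ κ → ZMod p := Sum.elim (fun m => ((16 + 8 * (q m).val : ℕ) : ZMod p))
    (fun m => -((16 + 8 * (q m).val : ℕ) : ZMod p))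
  have hJl : ∀ m, (J (Sum.inl m)).val = 16 + 8 * (q m).val := fun m => by
    have := (q m).2
    exact ZMod.val_natCast_of_lt (by omega)
  have hJr : ∀ m, (J (Sum.inr m)).val = p - (16 + 8 * (q m).val) := fun m => by
    have := (q m).2
    show (-((16 + 8 * (q m).val : ℕ) : ZMod p)).val = _
    rw [vneg, ZMod.val_natCast_of_lt (by omega), if_neg (by omega)]
  have hJm : ∀ x, (16 ≤ (J x).val ∧ (J x).val < 16 + 8 * k ∧ (J x).val % 8 = 0) ∨
      (16 ≤ p - (J x).val ∧ p - (J x).val < 16 + 8 * k ∧ (p - (J x).val) % 8 = 0) := by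
    rintro (m | m)
    · have := (q m).2
      rw [hJl]
      omega
    · have := (q m).2
      rw [hJr]
      omega
  have vadd : ∀ x, (J x + ((2 : ℕ) : ZMod p)).val = (J x).val + 2 := by
    intro x
    have h1 := hJm x
    have h3 := vlt (J x)
    rw [ZMod.val_add_of_lt (by rw [v2]; omega), v2]
  refine ⟨ZMod p, inferInstance, inferInstance, 0, J, r, t * r, e, s, T, ?_, ?_, ?_, hrr, htr, ?_, ?_,
    ?_, ?_, hcube, ?_, ?_, ?_, ?_, ?_, ?_, ?_⟩
  · rintro (m | m) (m' | m') h
    · have h1 := congrArg ZMod.val h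
      rw [hJl, hJl] at h1
      rw [q.injective (Fin.ext (show (q m).val = (q m').val by omega))]
    · have h1 := congrArg ZMod.val h
      rw [hJl, hJr] at h1
      have := (q m).2
      have := (q m').2
      omega
    · have h1 := congrArg ZMod.val h
      rw [hJl, hJr] at h1
      have := (q m).2
      have := (q m').2
      omega
    · have h1 := congrArg ZMod.val h
      rw [hJr, hJr] at h1
      have := (q m).2
      have := (q m').2
      rw [q.injective (Fin.ext (show (q m).val = (q m').val by omega))]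
  · intro x h
    have h1 := hJm x
    rw [h, ZMod.val_zero] at h1
    omega
  · rw [hcard]; omega
  · calc (e * s) * (e * s) = e * (s * e) * s := by group
      _ = (e * e) * (s * s) := by rw [← es]; group
      _ = 1 := by rw [hee, hss, one_mul]
  · calc r * (e * s) = (r * e) * s := by group
      _ = e * (r * s) := by rw [hre]; group
      _ = _ := by rw [hrs]; group
  · rintro (m | m)
    · rfl
    · show -(-((16 + 8 * (q m).val : ℕ) : ZMod p)) = ((16 + 8 * (q m).val : ℕ) : ZMod p)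
      rw [neg_neg]
  · have : t * r * r = t := by rw [mul_assoc, hrr, mul_one]
    rw [this]
  · have m4 : t * r * r ∈ Subgroup.closure ({t * r * r,
        (e * (T * e * T⁻¹)) * (e * (T * e * T⁻¹))} : Set (alternatingGroup (ZMod p))) :=
      Subgroup.subset_closure (by simp)
    have m5 : (e * (T * e * T⁻¹)) * (e * (T * e * T⁻¹)) ∈ Subgroup.closure ({t * r * r,
        (e * (T * e * T⁻¹)) * (e * (T * e * T⁻¹))} : Set (alternatingGroup (ZMod p))) :=
      Subgroup.subset_closure (by simp)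
    refine eq_top_of_three hprime 0 _ ?_ m5 h3c
    have m6 : t * r * r = t := by rw [mul_assoc, hrr, mul_one]
    intro i
    refine ⟨(t * r * r) ^ i.val, pow_mem m4 _, ?_⟩
    rw [m6]
    have key : ∀ n : ℕ, ((t ^ n : alternatingGroup (ZMod p)) : Perm (ZMod p)) 0 = (n : ZMod p) := by
      intro n
      induction n with
      | zero => simp
      | succ n ih =>
        rw [pow_succ', Subgroup.coe_mul, Perm.mul_apply, ih]
        show 1 + (n : ZMod p) = _
        push_cast
        ring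
    rw [key, ZMod.natCast_zmod_val]
  · intro x
    by_contra h
    have h1 := hem _ h
    have h3 := hJm x
    omega
  · intro x
    by_contra h
    have h1 := hem _ h
    have h3 := hJm x
    have h4 := vlt (J x)
    rw [hTa, vadd] at h1
    omega
  · intro x
    by_contra h
    have h1 := hem _ (hTm e _ h)
    have h3 := hJm x
    have h4 := vlt (J x)
    rw [vsub] at h1
    split_ifs at h1 <;> omega
  · intro x
    by_contra h
    have h1 := hsm _ h
    have h3 := hJm x
    have h4 := vlt (J x)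
    rw [hTa, vadd] at h1
    omega
  · intro x
    by_contra h
    have h1 := hsm _ (hTm s _ h)
    have h3 := hJm x
    have h4 := vlt (J x)
    rw [vsub] at h1
    split_ifs at h1 <;> omega
  · intro H hsH hH
    -- 3-cycles
    have hcyc : ∀ x y : ZMod p, x ≠ 0 → y ≠ 0 → (∀ z, J z ≠ x) → (∀ z, J z ≠ y) → x ≠ y →
        ∃ σ ∈ H, (σ : Perm (ZMod p)) = swap 0 x * swap 0 y := by
      intro x y hx hy hJx hJy hxy
      have hmem : swap 0 x * swap 0 y ∈ alternatingGroup (ZMod p) := by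
        rw [mem_alternatingGroup, map_mul, sign_swap hx.symm, sign_swap hy.symm]
        rfl
      refine ⟨⟨_, hmem⟩, hH _ ?_, rfl⟩
      intro z
      have f0 : J z ≠ 0 := fun h => by
        have h1 := hJm z
        rw [h, ZMod.val_zero] at h1
        omega
      show (swap 0 x * swap 0 y) (J z) = J z
      rw [Perm.mul_apply, swap_apply_of_ne_of_ne f0 (hJy z), swap_apply_of_ne_of_ne f0 (hJx z)]
    have c2 : ∀ z, J z ≠ ((2 : ℕ) : ZMod p) := by
      intro z h
      have h1 := hJm z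
      rw [h, v2] at h1
      omega
    have c3 : ∀ z, J z ≠ ((3 : ℕ) : ZMod p) := by
      intro z h
      have h1 := hJm z
      rw [h, ZMod.val_natCast_of_lt (show 3 < p by omega)] at h1
      omega
    have c30 : ((3 : ℕ) : ZMod p) ≠ 0 := by
      rw [← Nat.cast_zero]
      exact hne _ _ (by omega) (by omega) (by norm_num)
    have c23 : ((2 : ℕ) : ZMod p) ≠ ((3 : ℕ) : ZMod p) :=
      hne _ _ (by omega) (by omega) (by norm_num)
    have hbig : ∀ x : ZMod p, (∀ z, J z ≠ x) → ∃ σ ∈ H, (σ : Perm (ZMod p)) 0 = x := by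
      intro x hx
      by_cases hx0 : x = 0
      · exact ⟨1, one_mem _, by rw [hx0]; rfl⟩
      obtain ⟨c, hc1, hc2, hc3⟩ : ∃ c : ZMod p, c ≠ 0 ∧ (∀ z, J z ≠ c) ∧ c ≠ x := by
        by_cases h : ((2 : ℕ) : ZMod p) = x
        · exact ⟨_, c30, c3, fun h' => c23 (h.trans h'.symm)⟩
        · exact ⟨_, h2, c2, h⟩
      obtain ⟨σ, hσ, hσe⟩ := hcyc c x hc1 hx0 hc2 hx hc3
      refine ⟨σ, hσ, ?_⟩
      rw [hσe, Perm.mul_apply, swap_apply_left, swap_apply_of_ne_of_ne hx0 hc3.symm]
    obtain ⟨τ, hτ, hτe⟩ := hcyc _ _ h2 c30 c2 c3 c23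
    have hτ3 : (τ : Perm (ZMod p)).IsThreeCycle := by
      rw [hτe]
      exact isThreeCycle_swap_mul_swap_same h2.symm c30.symm c23
    refine eq_top_of_three hprime 0 H ?_ hτ hτ3
    intro i
    by_cases hi : ∀ z, J z ≠ i
    · exact hbig i hi
    · push Not at hi
      obtain ⟨z, rfl⟩ := hi
      have hsz : ∀ z', J z' ≠ (s : Perm (ZMod p)) (J z) := by
        have hpos : ∀ i : ZMod p, 16 ≤ i.val → i.val < 16 + 8 * k → i.val % 8 = 0 →
            (s₁ i).val = i.val + 4 := by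
          intro i a1 a2 a3
          have e1 : s₁ i = i + ((4 : ℕ) : ZMod p) := if_pos ⟨a1, a2, a3⟩
          rw [e1, ZMod.val_add_of_lt (by rw [v4]; omega), v4]
        have hfix : ∀ i : ZMod p, 16 + 8 * k ≤ i.val → s₁ i = i := by
          intro i a1
          by_contra h
          have := hs₁m i h
          omega
        intro z' h
        have key : ∀ i : ZMod p, (s : Perm (ZMod p)) i = s₁ (-(s₁ (-i))) := fun i => rfl
        rcases z with m | m
        · have hm := (q m).2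
          have b1 := hJl m
          have b2 : (-(J (Sum.inl m))).val = p - (16 + 8 * (q m).val) := by
            rw [vneg, b1, if_neg (by omega)]
          have b3 : (s : Perm (ZMod p)) (J (Sum.inl m)) = s₁ (J (Sum.inl m)) := by
            rw [key, hfix (-(J (Sum.inl m))) (by rw [b2]; omega), neg_neg]
          have b4 := hpos (J (Sum.inl m)) (by omega) (by omega) (by omega)
          have h1 := hJm z'
          rw [h, b3, b4] at h1
          omega
        · have hm := (q m).2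
          have b1 : -(J (Sum.inr m)) = J (Sum.inl m) := by
            show -(-((16 + 8 * (q m).val : ℕ) : ZMod p)) = _
            rw [neg_neg]
            rfl
          have b2 := hJl m
          have b4 := hpos (J (Sum.inl m)) (by omega) (by omega) (by omega)
          have b5 : (-(s₁ (J (Sum.inl m)))).val = p - (20 + 8 * (q m).val) := by
            rw [vneg, b4, b2, if_neg (by omega)]
            omega
          have b3 : (s : Perm (ZMod p)) (J (Sum.inr m)) = -(s₁ (J (Sum.inl m))) := by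
            rw [key, b1, hfix _ (by rw [b5]; omega)]
          have h1 := hJm z'
          rw [h, b3, b5] at h1
          omega
      obtain ⟨σ, hσ, h⟩ := hbig _ hsz
      refine ⟨s * σ, mul_mem hsH hσ, ?_⟩
      rw [Subgroup.coe_mul, Perm.mul_apply, h]
      have := congrArg (fun f : alternatingGroup (ZMod p) => (f : Perm (ZMod p)) (J z)) hss
      exact this

end Pool.Agent.W2helper38.IN
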