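import Pool.Agent.W2helper38.IN.Wr

/-!
# The reduction of the strong gap problem to groups generated by three involutions
-/

set_option autoImplicit false

open scoped commutatorElement

namespace Pool.Agent.W2helper38.IN

open Pool.Agent.W2helper38.FA
open Pool.Agent.H45R3.UG Pool.Agent.W582.UG

/-- the assertion `G*(β)` within a class of groups -/
def GStar (𝒞 : (G : Type) → [Group G] → Prop) (β : ℝ) : Prop :=
  ∀ (G : Type) [Group G] (X : Finset G), Subgroup.closure (X : Set G) = ⊤ → 𝒞 G →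
    ¬ VirtNilp G →
    ∃ C : ℕ, 1 ≤ C ∧ ∀ n : ℕ, Real.exp ((n : ℝ) ^ β) ≤ ((ball X (C * n)).ncard : ℝ)

/-- `P` is perfect, has property (FA), is generated by three involutions two of which commute, and
all its proper quotients are virtually nilpotent. -/
def Crit3 (P : Type) [Group P] : Prop :=
  ⁅(⊤ : Subgroup P), (⊤ : Subgroup P)⁆ = ⊤ ∧ PropFA P ∧
    (∃ a b c : P, a * a = 1 ∧ b * b = 1 ∧ c * c = 1 ∧ a * c = c * a ∧
      Subgroup.closure {a, b, c} = ⊤) ∧
    ∀ (M : Subgroup P) [M.Normal], M ≠ ⊥ → VirtNilp (P ⧸ M)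

lemma one_le_ball {G : Type} [Group G] (X : Finset G) (n : ℕ) : 1 ≤ (ball X n).ncard :=
  (Set.ncard_pos (ball_finite X n)).2 ⟨1, one_mem_ball _⟩

theorem reduction {β : ℝ} (hβ : 0 < β) (hβ1 : β ≤ 1) (h : GStar (fun P _ => Crit3 P) β) :
    GStar (fun _ _ => True) β := by
  classical
  intro G _ X hX _ hvn
  obtain ⟨P, _, a, b, c, Y, hYm, haa, hbb, hcc, hac, hY, hPp, hPvn, N, M, hb⟩ :=
    exists_perfect X hX hvn
  have hPfg : Group.FG P := Group.fg_def.2 ⟨Y, hY⟩
  obtain ⟨N', hNn, hNv, hN⟩ := exists_jn hPfg hPvn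
  let π : P →* P ⧸ N' := QuotientGroup.mk' N'
  have hπ : Function.Surjective π := QuotientGroup.mk'_surjective N'
  have hQgen := closure_image π hπ hY
  have hQp : ⁅(⊤ : Subgroup (P ⧸ N')), (⊤ : Subgroup (P ⧸ N'))⁆ = ⊤ := by
    have := range_perfect π hPp
    rwa [MonoidHom.range_eq_top.2 hπ] at this
  have hnβ : ∀ n : ℕ, ((n : ℝ)) ^ β ≤ n := by
    intro n
    rcases Nat.eq_zero_or_pos n with rfl | hn
    · simp [Real.zero_rpow hβ.ne']
    · calc (n : ℝ) ^ β ≤ (n : ℝ) ^ (1 : ℝ) :=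
          Real.rpow_le_rpow_of_exponent_le (by exact_mod_cast hn) hβ1
        _ = n := Real.rpow_one _
  -- the quotient
  obtain ⟨C, hC1, hC⟩ : ∃ C : ℕ, 1 ≤ C ∧
      ∀ n : ℕ, Real.exp ((n : ℝ) ^ β) ≤ ((ball (Y.image π) (C * n)).ncard : ℝ) := by
    by_cases hFA : PropFA (P ⧸ N')
    · refine h (P ⧸ N') (Y.image π) hQgen ⟨hQp, hFA, ⟨π a, π b, π c, ?_, ?_, ?_, ?_, ?_⟩,
        fun M _ hM => hN M hM⟩ hNv
      · rw [← map_mul, haa, map_one]
      · rw [← map_mul, hbb, map_one]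
      · rw [← map_mul, hcc, map_one]
      · rw [← map_mul, hac, map_mul]
      · rw [← hQgen]
        congr 1
        ext x
        simp only [Set.mem_insert_iff, Set.mem_singleton_iff, Finset.coe_image, Set.mem_image,
          Finset.mem_coe, hYm]
        constructor
        · rintro (rfl | rfl | rfl)
          · exact ⟨a, Or.inl rfl, rfl⟩
          · exact ⟨b, Or.inr (Or.inl rfl), rfl⟩
          · exact ⟨c, Or.inr (Or.inr rfl), rfl⟩
        · rintro ⟨y, rfl | rfl | rfl, rfl⟩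
          · exact Or.inl rfl
          · exact Or.inr (Or.inl rfl)
          · exact Or.inr (Or.inr rfl)
    · have h1 : ∀ m, 2 ^ m ≤ (ball (Y.image π) (m * 6)).ncard := by
        unfold PropFA at hFA
        push Not at hFA
        obtain ⟨V, _, T, hT, hact, -, hfix⟩ := hFA
        exact ball_of_tree hT hact hQp _ hQgen (by push Not; exact hfix)
      refine ⟨12, by norm_num, fun n => ?_⟩
      have h2 := h1 (2 * n)
      calc Real.exp ((n : ℝ) ^ β) ≤ Real.exp n := Real.exp_le_exp.2 (hnβ n)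
        _ = Real.exp 1 ^ n := by rw [← Real.exp_nat_mul, mul_one]
        _ ≤ 4 ^ n := pow_le_pow_left₀ (by positivity)
            (by have := Real.exp_one_lt_d9; linarith) n
        _ = ((2 ^ (2 * n) : ℕ) : ℝ) := by
            push_cast
            rw [pow_mul]
            norm_num
        _ ≤ ((ball (Y.image π) (2 * n * 6)).ncard : ℝ) := by exact_mod_cast h2
        _ = _ := by rw [show 2 * n * 6 = 12 * n by ring]
  -- the comparison
  obtain ⟨A, hA⟩ : ∃ A : ℕ, N ≤ 2 ^ A := ⟨N, Nat.lt_two_pow_self.le⟩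
  set L : ℕ := M + A + 1 with hL
  obtain ⟨T, hT⟩ := exists_nat_ge ((L : ℝ) ^ (1 / β))
  have hL1 : (1 : ℝ) ≤ L := by
    rw [hL]
    push_cast
    have : (0 : ℝ) ≤ (M : ℝ) + A := by positivity
    linarith
  have hT1 : 1 ≤ T := by
    have : (1 : ℝ) ≤ T := (Real.one_le_rpow hL1 (by positivity)).trans hT
    exact_mod_cast this
  have hT2 : (L : ℝ) ≤ (T : ℝ) ^ β := by
    calc (L : ℝ) = ((L : ℝ) ^ (1 / β)) ^ β := by
          rw [← Real.rpow_mul (by positivity), one_div_mul_cancel hβ.ne', Real.rpow_one]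
      _ ≤ (T : ℝ) ^ β := Real.rpow_le_rpow (by positivity) hT hβ.le
  refine ⟨2 * C * T, by nlinarith [Nat.mul_le_mul hC1 hT1], fun n => ?_⟩
  rcases Nat.eq_zero_or_pos n with rfl | hn
  · simp only [Nat.cast_zero, Real.zero_rpow hβ.ne', Real.exp_zero, mul_zero]
    exact_mod_cast one_le_ball X 0
  set g : ℕ := (ball X (2 * C * T * n)).ncard with hg
  have hg2 : 2 ≤ g := two_le_ball hX (nontrivial_of_not_vn hvn)
    (Nat.succ_le_of_lt (Nat.mul_pos (Nat.mul_pos (Nat.mul_pos two_pos hC1) hT1) hn))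
  have h1 : Real.exp (((T * n : ℕ) : ℝ) ^ β) ≤ (g : ℝ) ^ L := by
    refine (hC (T * n)).trans ?_
    have h2 : (ball (Y.image π) (C * (T * n))).ncard ≤ g ^ L := by
      calc (ball (Y.image π) (C * (T * n))).ncard ≤ (ball Y (C * (T * n))).ncard := ball_image π Y _
        _ ≤ N * (ball X (2 * (C * (T * n)))).ncard ^ M := hb _
        _ = N * g ^ M := by rw [hg, show 2 * (C * (T * n)) = 2 * C * T * n by ring]
        _ ≤ g ^ A * g ^ M := Nat.mul_le_mul_right _ (hA.trans (Nat.pow_le_pow_left hg2 A))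
        _ = g ^ (M + A) := by rw [← pow_add, add_comm]
        _ ≤ g ^ L := Nat.pow_le_pow_right (by omega) (by omega)
    exact_mod_cast h2
  have h3 : Real.exp ((n : ℝ) ^ β) ^ L ≤ (g : ℝ) ^ L := by
    refine le_trans ?_ h1
    rw [← Real.exp_nat_mul]
    apply Real.exp_le_exp.2
    push_cast
    rw [Real.mul_rpow (by positivity) (by positivity)]
    exact mul_le_mul_of_nonneg_right hT2 (by positivity)
  exact le_of_pow_le_pow_left₀ (by omega) (by positivity) h3

/-- the equivalence -/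
theorem reduction_iff {β : ℝ} (hβ : 0 < β) (hβ1 : β ≤ 1) :
    GStar (fun _ _ => True) β ↔ GStar (fun P _ => Crit3 P) β :=
  ⟨fun h G _ X hX _ hvn => h G X hX trivial hvn, reduction hβ hβ1⟩

end Pool.Agent.W2helper38.IN
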