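import Pool.Agent.W2helper38.FA.Red
import Pool.Agent.W2helper38.IN.Perm

/-!
# Embedding of the growth problem into perfect groups generated by three involutions
-/

set_option autoImplicit false

open scoped commutatorElement
open Equiv (Perm)

namespace Pool.Agent.W2helper38.IN

open Pool.Agent.W2helper38.FA (range_perfect vn_sub vn_of_surj)
open Pool.Agent.H45R3.UG (VirtNilp ball ball_finite ball_mono one_mem_ball mul_mem_ball mem_ball_one
  inv_mem_ball_one inv_mem_ball ball_sub)

/-- the permutational wreath product of `G` and the alternating group on `Ω` -/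
abbrev WW (Ω : Type) [Fintype Ω] [DecidableEq Ω] (G : Type) [Group G] : Type :=
  (Ω → G) ⋊[mulAutArrow] (alternatingGroup Ω)

section
variable {Ω : Type} [Fintype Ω] [DecidableEq Ω] {G : Type} [Group G]

/-- the conjugate of the alternating group by an element of the base group -/
def ψ (d : Ω → G) : alternatingGroup Ω →* WW Ω G :=
  (MulAut.conj (SemidirectProduct.inl d : WW Ω G)).toMonoidHom.comp SemidirectProduct.inr

lemma ψ_right (d : Ω → G) (σ : alternatingGroup Ω) : (ψ d σ).right = σ := by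
  simp [ψ]

lemma ψ_left (d : Ω → G) (σ : alternatingGroup Ω) (i : Ω) :
    (ψ d σ).left i = d i * (d ((σ : Perm Ω)⁻¹ i))⁻¹ := by
  have h : ψ d σ = SemidirectProduct.inl d * SemidirectProduct.inr σ *
      SemidirectProduct.inl d⁻¹ := by
    rw [map_inv]
    rfl
  have h2 : (ψ d σ).left = d * mulAutArrow σ d⁻¹ := by
    rw [h]
    simp
  rw [h2]
  rfl

lemma ψ_congr {D d : Ω → G} {σ : alternatingGroup Ω}
    (h : ∀ i, (σ : Perm Ω) i ≠ i → D i = d i) : ψ D σ = ψ d σ := by
  apply SemidirectProduct.ext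
  · funext i
    rw [ψ_left, ψ_left]
    by_cases hi : (σ : Perm Ω) i = i
    · have h1 : (σ : Perm Ω)⁻¹ i = i := by rw [Perm.inv_eq_iff_eq, hi]
      rw [h1, mul_inv_cancel, mul_inv_cancel]
    · have h1 : (σ : Perm Ω) ((σ : Perm Ω)⁻¹ i) ≠ (σ : Perm Ω)⁻¹ i := by
        have h2 : (σ : Perm Ω) ((σ : Perm Ω)⁻¹ i) = i := by simp
        rw [h2]
        intro h3
        apply hi
        conv_lhs => rw [h3]
        exact h2
      rw [h i hi, h _ h1]
  · rw [ψ_right, ψ_right]

lemma ψ_conj (d : Ω → G) (σ τ : alternatingGroup Ω) :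
    ψ (1 : Ω → G) τ * ψ d σ * (ψ (1 : Ω → G) τ)⁻¹ =
      ψ (fun i => d ((τ : Perm Ω)⁻¹ i)) (τ * σ * τ⁻¹) := by
  rw [← map_inv]
  apply SemidirectProduct.ext
  · funext i
    rw [SemidirectProduct.mul_left, SemidirectProduct.mul_left]
    show ((ψ (1 : Ω → G) τ).left i * (ψ d σ).left ((ψ (1 : Ω → G) τ).right⁻¹ • i)) *
      (ψ (1 : Ω → G) τ⁻¹).left ((ψ (1 : Ω → G) τ * ψ d σ).right⁻¹ • i) = _
    rw [ψ_right, ψ_left, ψ_left, ψ_left, ψ_left]
    simp only [Pi.one_apply, inv_one, mul_one, one_mul]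
    congr 3
    show (σ : Perm Ω)⁻¹ ((τ : Perm Ω)⁻¹ i) =
      (τ : Perm Ω)⁻¹ (((τ : Perm Ω) * (σ : Perm Ω) * (τ : Perm Ω)⁻¹)⁻¹ i)
    simp [mul_inv_rev]
  · rw [SemidirectProduct.mul_right, SemidirectProduct.mul_right, ψ_right, ψ_right, ψ_right, ψ_right]

end

open Classical in
/-- the embedding -/
theorem exists_perfect {G : Type} [Group G] (X : Finset G)
    (hX : Subgroup.closure (X : Set G) = ⊤) (hvn : ¬ VirtNilp G) :
    ∃ (P : Type) (_ : Group P) (a b c : P) (Y : Finset P), (∀ y, y ∈ Y ↔ y = a ∨ y = b ∨ y = c) ∧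
      a * a = 1 ∧ b * b = 1 ∧ c * c = 1 ∧ a * c = c * a ∧
      Subgroup.closure (Y : Set P) = ⊤ ∧
      ⁅(⊤ : Subgroup P), (⊤ : Subgroup P)⁆ = ⊤ ∧ ¬ VirtNilp P ∧
      ∃ N M : ℕ, ∀ n, (ball Y n).ncard ≤ N * (ball X (2 * n)).ncard ^ M := by
  obtain ⟨Ω, _, _, o, J, r, r', e, s, T, hJ, hJo, hcard, hrr, hr'r', hcc, hrc, hrJ, hT, hcube, hgen,
    hE1, hE2, hE3, hS2, hS3, hH⟩ := exists_perm {x // x ∈ X}
  let g : {x // x ∈ X} ⊕ {x // x ∈ X} → G := Sum.elim (fun x => x.1) (fun x => x.1)
  let d : Ω → G := Function.extend J g (fun _ => 1)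
  have dJ : ∀ x, d (J x) = g x := fun x => hJ.extend_apply g (fun _ => 1) x
  have d1 : ∀ i, (∀ x, J x ≠ i) → d i = 1 := fun i hi =>
    Function.extend_apply' g (fun _ => 1) i (by push Not; exact hi)
  have hgX : ∀ x, g x ∈ X := by rintro (x | x) <;> exact x.2
  have hgs : ∀ x, g x.swap = g x := by rintro (x | x) <;> rfl
  have hd : ∀ i, d i = 1 ∨ d i ∈ X := by
    intro i
    by_cases h : ∀ x, J x ≠ i
    · exact Or.inl (d1 i h)
    · push Not at h
      obtain ⟨x, rfl⟩ := h
      rw [dJ]
      exact Or.inr (hgX x)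
  have hrinv : (r : Perm Ω)⁻¹ = (r : Perm Ω) :=
    inv_eq_of_mul_eq_one_left (congrArg Subtype.val hrr)
  have hdr : ∀ i, d ((r : Perm Ω) i) = d i := by
    intro i
    by_cases h : ∀ x, J x ≠ i
    · have h2 : ∀ x, J x ≠ (r : Perm Ω) i := by
        intro x hx
        apply h x.swap
        rw [← hrJ, hx]
        exact congrArg (fun f : alternatingGroup Ω => (f : Perm Ω) i) hrr
      rw [d1 i h, d1 _ h2]
    · push Not at h
      obtain ⟨x, rfl⟩ := h
      rw [hrJ, dJ, dJ, hgs]
  -- moved points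
  have mE1 : ∀ i, (e : Perm Ω) i ≠ i → d i = 1 := fun i hi =>
    d1 i fun x hx => hi (by rw [← hx, hE1])
  have mT : ∀ i, (∀ x, (T : Perm Ω) (J x) ≠ i) → d ((T : Perm Ω)⁻¹ i) = 1 := fun i hi =>
    d1 _ fun x hx => hi x (by rw [hx]; simp)
  have mE2 : ∀ i, (e : Perm Ω) i ≠ i → d ((T : Perm Ω)⁻¹ i) = 1 := fun i hi =>
    mT i fun x hx => hi (by rw [← hx, hE2])
  have mE3 : ∀ i, ((T * e * T⁻¹ : alternatingGroup Ω) : Perm Ω) i ≠ i → d i = 1 := fun i hi =>
    d1 i fun x hx => hi (by rw [← hx, hE3])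
  have mE4 : ∀ i, ((T * e * T⁻¹ : alternatingGroup Ω) : Perm Ω) i ≠ i →
      d ((T : Perm Ω)⁻¹ i) = 1 := by
    intro i hi
    apply mE1
    intro h
    apply hi
    show (T : Perm Ω) ((e : Perm Ω) ((T : Perm Ω)⁻¹ i)) = i
    rw [h]
    simp
  have mS2 : ∀ i, (s : Perm Ω) i ≠ i → d ((T : Perm Ω)⁻¹ i) = 1 := fun i hi =>
    mT i fun x hx => hi (by rw [← hx, hS2])
  have mS3 : ∀ i, ((T * s * T⁻¹ : alternatingGroup Ω) : Perm Ω) i ≠ i → d i = 1 := fun i hi =>
    d1 i fun x hx => hi (by rw [← hx, hS3])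
  have mmul : ∀ (x y : alternatingGroup Ω) (i : Ω), ((x * y : alternatingGroup Ω) : Perm Ω) i ≠ i →
      (x : Perm Ω) i ≠ i ∨ (y : Perm Ω) i ≠ i := by
    intro x y i hi
    by_contra hcon
    push Not at hcon
    apply hi
    show (x : Perm Ω) ((y : Perm Ω) i) = i
    rw [hcon.2, hcon.1]
  -- the group
  set a : WW Ω G := ψ 1 r with ha
  set b : WW Ω G := ψ 1 r' with hb
  set c : WW Ω G := ψ d (e * s) with hc
  have haa : a * a = 1 := by rw [ha, ← map_mul, hrr, map_one]
  have hbb : b * b = 1 := by rw [hb, ← map_mul, hr'r', map_one]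
  have hcc' : c * c = 1 := by rw [hc, ← map_mul, hcc, map_one]
  have had : ψ d r = a := by
    apply SemidirectProduct.ext
    · funext i
      rw [ψ_left, ψ_left, hrinv, hdr, mul_inv_cancel]
      simp
    · rw [ψ_right, ψ_right]
  have hac : a * c = c * a := by
    rw [← had, hc, ← map_mul, ← map_mul, hrc]
  set K : Subgroup (WW Ω G) := Subgroup.closure {a, b, c} with hK
  have haK : a ∈ K := Subgroup.subset_closure (by simp)
  have hbK : b ∈ K := Subgroup.subset_closure (by simp)
  have hcK : c ∈ K := Subgroup.subset_closure (by simp)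
  have k1 : K.comap (ψ (1 : Ω → G)) = ⊤ := by
    rw [eq_top_iff, ← hgen, Subgroup.closure_le]
    have g1 : r' * r ∈ K.comap (ψ (1 : Ω → G)) := by
      show ψ 1 (r' * r) ∈ K
      rw [map_mul]
      exact mul_mem hbK haK
    rintro x (rfl | rfl)
    · exact g1
    · have g2 : ψ 1 T ∈ K := by
        have : T ∈ K.comap (ψ (1 : Ω → G)) := by rw [hT]; exact mul_mem g1 g1
        exact this
      have g3 : ψ (fun i => d ((T : Perm Ω)⁻¹ i)) (T * (e * s) * T⁻¹) ∈ K := by
        rw [← ψ_conj]
        exact mul_mem (mul_mem g2 hcK) (inv_mem g2)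
      let D : Ω → G := fun i => d i * d ((T : Perm Ω)⁻¹ i)
      have g4 : ψ D (e * s) ∈ K := by
        rw [ψ_congr (d := d)]
        · exact hcK
        · intro i hi
          rcases mmul _ _ i hi with h | h
          · show d i * d ((T : Perm Ω)⁻¹ i) = d i
            rw [mE2 i h, mul_one]
          · show d i * d ((T : Perm Ω)⁻¹ i) = d i
            rw [mS2 i h, mul_one]
      have g5 : ψ D (T * (e * s) * T⁻¹) ∈ K := by
        rw [ψ_congr (d := fun i => d ((T : Perm Ω)⁻¹ i))]
        · exact g3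
        · intro i hi
          have h0 : T * (e * s) * T⁻¹ = (T * e * T⁻¹) * (T * s * T⁻¹) := by group
          rw [h0] at hi
          rcases mmul _ _ i hi with h | h
          · show d i * d ((T : Perm Ω)⁻¹ i) = _
            rw [mE3 i h, one_mul]
          · show d i * d ((T : Perm Ω)⁻¹ i) = _
            rw [mS3 i h, one_mul]
      have g6 : ψ D ((e * (T * e * T⁻¹)) * (e * (T * e * T⁻¹))) ∈ K := by
        rw [← hcube, map_mul, map_mul]
        exact mul_mem (mul_mem g4 g5) (mul_mem g4 g5)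
      have g7 : ψ D ((e * (T * e * T⁻¹)) * (e * (T * e * T⁻¹))) =
          ψ 1 ((e * (T * e * T⁻¹)) * (e * (T * e * T⁻¹))) := by
        apply ψ_congr
        intro i hi
        have h3 : (e : Perm Ω) i ≠ i ∨ ((T * e * T⁻¹ : alternatingGroup Ω) : Perm Ω) i ≠ i := by
          rcases mmul _ _ i hi with h | h
          · exact mmul _ _ i h
          · exact mmul _ _ i h
        rcases h3 with h | h
        · show d i * d ((T : Perm Ω)⁻¹ i) = 1
          rw [mE1 i h, mE2 i h, one_mul]
        · show d i * d ((T : Perm Ω)⁻¹ i) = 1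
          rw [mE3 i h, mE4 i h, one_mul]
      show ψ 1 _ ∈ K
      rw [← g7]
      exact g6
  have k1' : ∀ σ, ψ 1 σ ∈ K := fun σ => by
    have : σ ∈ K.comap (ψ (1 : Ω → G)) := by rw [k1]; trivial
    exact this
  have k2 : K.comap (ψ d) = ⊤ := by
    apply hH
    · have h1 : ψ d e = ψ 1 e := ψ_congr fun i hi => mE1 i hi
      show ψ d s ∈ K
      have h2 : ψ d s = (ψ d e)⁻¹ * c := by rw [hc, map_mul, inv_mul_cancel_left]
      rw [h2, h1]
      exact mul_mem (inv_mem (k1' e)) hcK
    · intro σ hσ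
      have h1 : ψ d σ = ψ 1 σ := ψ_congr fun i hi => d1 i fun x hx => hi (by rw [← hx, hσ])
      show ψ d σ ∈ K
      rw [h1]
      exact k1' σ
  have k2' : ∀ σ, ψ d σ ∈ K := fun σ => by
    have : σ ∈ K.comap (ψ d) := by rw [k2]; trivial
    exact this
  have hAp : ⁅(⊤ : Subgroup (alternatingGroup Ω)), (⊤ : Subgroup (alternatingGroup Ω))⁆ = ⊤ := by
    have := commutator_alternatingGroup_eq_top (α := Ω) hcard
    rwa [commutator_def] at this
  have hKp : ⁅K, K⁆ = K := by
    refine le_antisymm (Subgroup.commutator_le_self _) ?_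
    have key : ∀ (D : Ω → G), (∀ σ, ψ D σ ∈ K) → ∀ σ, ψ D σ ∈ ⁅K, K⁆ := by
      intro D hD σ
      have h1 : (ψ D).range ≤ K := by
        rintro _ ⟨τ, rfl⟩
        exact hD τ
      have h2 : ⁅(ψ D).range, (ψ D).range⁆ = (ψ D).range := range_perfect _ hAp
      have h3 : ψ D σ ∈ ⁅(ψ D).range, (ψ D).range⁆ := by
        rw [h2]
        exact ⟨σ, rfl⟩
      exact Subgroup.commutator_mono h1 h1 h3
    conv_lhs => rw [hK]
    rw [Subgroup.closure_le]
    rintro w (rfl | rfl | rfl)
    · exact key 1 k1' _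
    · exact key 1 k1' _
    · exact key d k2' _
  let a' : K := ⟨a, haK⟩
  let b' : K := ⟨b, hbK⟩
  let c' : K := ⟨c, hcK⟩
  have hKgen : Subgroup.closure ((({a', b', c'} : Finset K)) : Set K) = ⊤ := by
    have h1 : ((({a', b', c'} : Finset K)) : Set K) = (Subtype.val : K → WW Ω G) ⁻¹' {a, b, c} := by
      ext x
      simp only [Finset.coe_insert, Finset.coe_singleton, Set.mem_insert_iff,
        Set.mem_singleton_iff, Set.mem_preimage, Subtype.ext_iff, a', b', c']
    rw [h1]
    exact Subgroup.closure_closure_coe_preimage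
  refine ⟨K, inferInstance, a', b', c', {a', b', c'},
    fun y => by simp only [Finset.mem_insert, Finset.mem_singleton], Subtype.ext haa,
    Subtype.ext hbb, Subtype.ext hcc', Subtype.ext hac, hKgen, ?_, ?_, ?_⟩
  · apply Subgroup.map_injective (Subgroup.subtype_injective K)
    rw [Subgroup.map_commutator, ← MonoidHom.range_eq_map, Subgroup.range_subtype, hKp]
  · -- not virtually nilpotent
    intro hv
    let P0 : Subgroup K := (SemidirectProduct.rightHom.comp K.subtype).ker
    let θ : P0 →* G :=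
      { toFun := fun w => ((w : K) : WW Ω G).left o
        map_one' := rfl
        map_mul' := fun x y => by
          have hx : ((x : K) : WW Ω G).right = 1 := x.2
          show (((x : K) : WW Ω G) * ((y : K) : WW Ω G)).left o = _
          rw [SemidirectProduct.mul_left, hx, map_one]
          rfl }
    have hθ : Function.Surjective θ := by
      rw [← MonoidHom.range_eq_top, eq_top_iff, ← hX, Subgroup.closure_le]
      intro y hy
      have htr : MulAction.IsPretransitive (alternatingGroup Ω) Ω :=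
        alternatingGroup.isPretransitive_of_three_le_card Ω (by omega)
      obtain ⟨τ, hτ⟩ := htr.exists_smul_eq o (J (Sum.inl ⟨y, hy⟩))
      have hτ' : ((τ⁻¹ : alternatingGroup Ω) : Perm Ω)⁻¹ o = J (Sum.inl ⟨y, hy⟩) := by
        rw [← hτ]
        simp
        rfl
      have hmem : ψ d τ⁻¹ * ψ 1 τ ∈ K := mul_mem (k2' _) (k1' _)
      have h1 : y⁻¹ ∈ θ.range := by
        refine ⟨⟨⟨ψ d τ⁻¹ * ψ 1 τ, hmem⟩, ?_⟩, ?_⟩
        · show (ψ d τ⁻¹ * ψ 1 τ).right = 1
          rw [SemidirectProduct.mul_right, ψ_right, ψ_right, inv_mul_cancel]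
        · show (ψ d τ⁻¹ * ψ 1 τ).left o = y⁻¹
          rw [SemidirectProduct.mul_left]
          show (ψ d τ⁻¹).left o * (ψ 1 τ).left ((ψ d τ⁻¹).right⁻¹ • o) = y⁻¹
          rw [ψ_left, ψ_left, hτ', dJ, d1 o (fun x => hJo x)]
          simp [g]
      have h2 := inv_mem h1
      rwa [inv_inv] at h2
    exact hvn (vn_of_surj (vn_sub hv P0) θ hθ)
  · -- growth
    have hdb : ∀ i, d i ∈ ball X 1 := by
      intro i
      rcases hd i with h | h
      · rw [h]; exact one_mem_ball _
      · exact mem_ball_one h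
    have hgb : ∀ w : K, (w ∈ ({a', b', c'} : Finset K) ∨ w⁻¹ ∈ ({a', b', c'} : Finset K)) → ∀ i,
        (w : WW Ω G).left i ∈ ball X 2 := by
      have key : ∀ w ∈ ({a', b', c'} : Finset K), ∀ i, (w : WW Ω G).left i ∈ ball X 2 := by
        intro w hw i
        simp only [Finset.mem_insert, Finset.mem_singleton] at hw
        rcases hw with rfl | rfl | rfl
        · show (ψ 1 r).left i ∈ _
          rw [ψ_left]
          simp only [Pi.one_apply, inv_one, mul_one]
          exact one_mem_ball _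
        · show (ψ 1 r').left i ∈ _
          rw [ψ_left]
          simp only [Pi.one_apply, inv_one, mul_one]
          exact one_mem_ball _
        · show (ψ d (e * s)).left i ∈ _
          rw [ψ_left]
          exact mul_mem_ball (m := 1) (n := 1) (hdb _) (inv_mem_ball (hdb _))
      have inv3 : ∀ w ∈ ({a', b', c'} : Finset K), w⁻¹ = w := by
        intro w hw
        simp only [Finset.mem_insert, Finset.mem_singleton] at hw
        rcases hw with rfl | rfl | rfl
        · exact inv_eq_of_mul_eq_one_left (Subtype.ext haa)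
        · exact inv_eq_of_mul_eq_one_left (Subtype.ext hbb)
        · exact inv_eq_of_mul_eq_one_left (Subtype.ext hcc')
      rintro w (hw | hw) i
      · exact key w hw i
      · have h1 := inv3 _ hw
        rw [inv_inv] at h1
        rw [h1]
        exact key _ hw i
    have hbl : ∀ (w : K) (n : ℕ), w ∈ ball ({a', b', c'} : Finset K) n → ∀ i,
        (w : WW Ω G).left i ∈ ball X (2 * n) := by
      rintro w n ⟨l, h1, h2, rfl⟩ i
      have key : ∀ l : List K, (∀ x ∈ l, x ∈ ({a', b', c'} : Finset K) ∨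
          x⁻¹ ∈ ({a', b', c'} : Finset K)) → ∀ i,
          ((l.prod : K) : WW Ω G).left i ∈ ball X (2 * l.length) := by
        intro l
        induction l with
        | nil => intro _ i; exact one_mem_ball _
        | cons x l ih =>
          intro hl i
          have e1 : (((x :: l).prod : K) : WW Ω G) = (x : WW Ω G) * ((l.prod : K) : WW Ω G) := by
            rw [List.prod_cons, Subgroup.coe_mul]
          rw [e1, SemidirectProduct.mul_left, List.length_cons,
            show 2 * (l.length + 1) = 2 + 2 * l.length by ring]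
          exact mul_mem_ball (hgb x (hl x List.mem_cons_self) i)
            (ih (fun x hx => hl x (List.mem_cons_of_mem _ hx)) _)
      exact ball_mono (Nat.mul_le_mul_left 2 h1) (key l h2 i)
    refine ⟨Nat.card (alternatingGroup Ω), Nat.card Ω, fun n => ?_⟩
    have hfin : Finite (ball X (2 * n)) := ball_finite X (2 * n)
    let f : ball ({a', b', c'} : Finset K) n → alternatingGroup Ω × (Ω → ball X (2 * n)) :=
      fun w => ((w.1 : WW Ω G).right, fun i => ⟨(w.1 : WW Ω G).left i, hbl w.1 n w.2 i⟩)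
    have hf : Function.Injective f := by
      intro w w' h
      apply Subtype.ext
      apply Subtype.ext
      apply SemidirectProduct.ext
      · funext i
        have := congrFun (congrArg Prod.snd h) i
        exact congrArg Subtype.val this
      · exact congrArg Prod.fst h
    have h1 := Nat.card_le_card_of_injective f hf
    rw [Nat.card_prod, Nat.card_fun, Nat.card_coe_set_eq, Nat.card_coe_set_eq] at h1
    exact h1

end Pool.Agent.W2helper38.IN
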